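import Pool.Agent.Y45.MON.StmG
import Pool.Agent.Y430.MON.V2

/-!
# Project MON, job V9: elements of bounded length which become torsion are short
(variable exponents; adaptation of `Pool.Agent.TH54.BU.BddFin`)
-/

set_option autoImplicit false

namespace Pool.Agent.Y317.MON

open Pool.Agent.TH54.BU Pool.Agent.Y45.MON

/-- an element whose powers have small angles survives -/
theorem surv2 {G : Type} [Group G] {H : GH G} {c θ T : ℕ} (L : LS H c θ T) {n : L.ι → ℕ}
    {M : Subgroup G} (F : Fv L n M) {E : GH G} {Θ : ℕ}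
    (C : L.Cone E Θ) (hn : ∀ i, T * (2 * c + 1) + 24 * L.thr ≤ n i) {u : G}
    (hu : ∀ m : ℕ, m ≤ H.len (u ^ m))
    (hang : ∀ (i : L.ι) (w : G) (m : ℕ), |L.s i w 1 (u ^ m)| + T * Θ + 12 * L.thr < n i)
    (N : ℕ) (hN : 0 < N) : u ^ N ∉ M := by
  intro hM
  have h := Pool.Agent.Y430.MON.tConeMin G H c θ T L n M F E Θ C hn 1 (u ^ N)
    (fun i w => hang i w N) _ (M.inv_mem hM)
  rw [inv_mul_cancel, E.d_self] at h
  have h1 : E.d 1 (u ^ N) = 0 := by omega
  have h2 := E.eq_of_d h1
  have h3 := hu N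
  rw [← h2, H.len_one] at h3
  omega

/-- **V9** -/
theorem bdd : BddStmt := by
  intro G _ H c θ T L K B p L1 Θ n E M _ Q S R hn g hg hl ht
  by_contra hns
  obtain ⟨u, -, hmin⟩ := cl_min (fun _ : G => True) (fun u => H.len (u⁻¹ * g * u)) ⟨1, trivial⟩
  set z := u⁻¹ * g * u with hz
  have hgz : g = u * z * u⁻¹ := by rw [hz]; group
  have hzC : H.CMin z := by
    intro v
    have := hmin (u * v) trivial
    rwa [show (u * v)⁻¹ * g * (u * v) = v⁻¹ * z * v by rw [hz]; group] at this
  have hzR : H.len z ≤ R := by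
    have := hmin 1 trivial
    simp only [inv_one, one_mul, mul_one] at this
    omega
  have hzf : ¬ IsOfFinOrder z := by
    intro h
    apply hg
    rw [hgz]
    have := (MulAut.conj u).toMonoidHom.isOfFinOrder h
    simpa using this
  have hzs : ¬ L.Short z := by
    rintro ⟨i, v, k, hv⟩
    apply hns
    refine ⟨i, u * v, k, ?_⟩
    rw [hgz, hv]
    group
  have hlen : 4 * H.D + 4 ≤ H.len z := by
    by_contra hcon
    have h1 := S.hL1
    exact hzs (S.short z hzf (by omega))
  -- finite order modulo `M`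
  obtain ⟨N, hN, h1⟩ := (isOfFinOrder_iff_pow_eq_one).1 ht
  rw [← QuotientGroup.mk_pow, QuotientGroup.eq_one_iff] at h1
  have h2 : z ^ N ∈ M := by
    have h3 := S.fil.normal.conj_mem _ h1 u⁻¹
    have h4 : z ^ N = u⁻¹ * g ^ N * u⁻¹⁻¹ := by
      have : z = u⁻¹ * g * u⁻¹⁻¹ := by rw [hz, inv_inv]
      rw [this, conj_pow]
    rwa [h4]
  refine surv2 L S.fil S.cone (fun i => by have := hn i; omega) (u := z) ?_ ?_ N hN h2
  · intro m
    have h3 := H.surv_sup_pow (H.sup_of_cmin hzC hlen).1 m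
    have h4 : m * (2 * H.D + 1) ≤ m * H.len z := Nat.mul_le_mul_left _ (by omega)
    have h5 : m * (2 * H.D + 1) = m * (2 * H.D) + m := by ring
    omega
  · intro i w m
    have hni := hn i
    have h3 := L.ovz hzC hlen hzs i w 0 m
    rw [zpow_zero, zpow_natCast] at h3
    have h4 := L.wf_lin_z i (L.s i w 1 (z ^ m))
    have h5 : T * H.len (L.x i ^ L.s i w 1 (z ^ m)) ≤ T * (R + θ + 100 * (H.D + c + 1)) := by
      refine Nat.mul_le_mul_left _ ?_
      have h6 : L.D i w 1 (z ^ m) = H.len (L.x i ^ L.s i w 1 (z ^ m)) := rfl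
      omega
    have h7 : (L.s i w 1 (z ^ m)).natAbs + T * Θ + 12 * L.thr < n i := by
      omega
    rw [Int.abs_eq_natAbs]
    exact_mod_cast h7

end Pool.Agent.Y317.MON
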